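import Pool.Agent.H647R3.BaireC

open Set Cardinal Topology

namespace Pool.Agent.Results.MP_e733ef_an.BaireNotAsplund

section defs

variable {E : Type} [AddCommGroup E] [Module ℝ E] [TopologicalSpace E]

/-- `f : D → ℝ` (given by a function on `E`) is Fréchet differentiable at `x₀`: there is a
continuous linear `φ` with `(f (x₀ + t x) - f x₀) / t → φ x` uniformly for `x` in every bounded
set. (`D` is open; the points `x₀ + t x` are required to lie in `D` for small `t`.) -/
def FrechetAt (D : Set E) (f : E → ℝ) (x₀ : E) : Prop :=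
  ∃ φ : E →L[ℝ] ℝ, ∀ B : Set E, Bornology.IsVonNBounded ℝ B → ∀ ε > 0, ∃ δ > 0,
    ∀ t : ℝ, 0 < |t| → |t| < δ →
      ∀ x ∈ B, x₀ + t • x ∈ D ∧ |(f (x₀ + t • x) - f x₀) / t - φ x| < ε

/-- Gâteaux differentiability: the same with `B` a singleton. -/
def GateauxAt (D : Set E) (f : E → ℝ) (x₀ : E) : Prop :=
  ∃ φ : E →L[ℝ] ℝ, ∀ x : E, ∀ ε > 0, ∃ δ > 0,
    ∀ t : ℝ, 0 < |t| → |t| < δ →
      x₀ + t • x ∈ D ∧ |(f (x₀ + t • x) - f x₀) / t - φ x| < ε

variable (E) in
/-- Asplund: every continuous convex function on a nonempty open convex set is Fréchet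
differentiable at each point of some dense `Gδ` subset of the set. -/
def IsAsplund : Prop :=
  ∀ D : Set E, D.Nonempty → IsOpen D → Convex ℝ D → ∀ f : E → ℝ, ContinuousOn f D →
    ConvexOn ℝ D f → ∃ S : Set E, S ⊆ D ∧ IsGδ S ∧ D ⊆ closure S ∧ ∀ x ∈ S, FrechetAt D f x

end defs

open H647R3.Baire in
/-- The construction over a Banach space `X` of size continuum with a separating sequence of
functionals, carrying a continuous convex function `p` with the given one-sided behaviour. -/
theorem main {X : Type} [NormedAddCommGroup X] [NormedSpace ℝ X] [CompleteSpace X]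
    (hcard : #X ≤ 𝔠) (hinf : ¬ FiniteDimensional ℝ X) (e₀ : ℕ → X →L[ℝ] ℝ)
    (he₀ : ∀ x, (∀ n, e₀ n x = 0) → x = 0) (p : X → ℝ) (hp : Continuous p)
    (hconv : ConvexOn ℝ Set.univ p)
    (hdir : ∀ x, ∃ h : X, ∀ t : ℝ, (0 < t → p x + t ≤ p (x + t • h)) ∧
      (t < 0 → p x ≤ p (x + t • h))) :
    ∃ (E : Type) (_ : AddCommGroup E) (_ : Module ℝ E) (_ : TopologicalSpace E)
    (_ : IsTopologicalAddGroup E) (_ : ContinuousSMul ℝ E),
    T2Space E ∧ LocallyConvexSpace ℝ E ∧ BaireSpace E ∧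
    TopologicalSpace.SeparableSpace (E →L[ℝ] ℝ) ∧
    ¬ IsAsplund E ∧
    ∃ f : E → ℝ, Continuous f ∧ ConvexOn ℝ Set.univ f ∧ ∀ x, ¬ GateauxAt Set.univ f x := by
  obtain ⟨T, hT1, hT2⟩ := exists_T hcard
  have hbaire : BaireSpace (Es T) := baire T hinf hT2
  have hbd := bounded_fd T hT1
  let π : Es T →L[ℝ] X := (ContinuousLinearMap.fst ℝ X (I → ℝ)).comp (Submodule.subtypeL _)
  let e : ℕ → Es T →L[ℝ] ℝ := fun n => (e₀ n).comp π
  have hsep : TopologicalSpace.SeparableSpace (Es T →L[ℝ] ℝ) := by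
    apply separable_dual hbd e
    intro z hz
    have h1 : z.1.1 = 0 := he₀ _ hz
    rw [← pt_fst z, h1]
    apply Subtype.ext
    simp [pt]
  let f : Es T → ℝ := fun z => p (π z)
  have hfc : Continuous f := hp.comp π.continuous
  have hfconv : ConvexOn ℝ Set.univ f := by
    refine ⟨convex_univ, fun x _ y _ a b ha hb hab => ?_⟩
    have h1 := hconv.2 (Set.mem_univ (π x)) (Set.mem_univ (π y)) ha hb hab
    have h2 : π (a • x + b • y) = a • π x + b • π y := by
      rw [map_add, map_smul, map_smul]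
    change p (π (a • x + b • y)) ≤ _
    rw [h2]
    exact h1
  have hnG : ∀ x, ¬ GateauxAt Set.univ f x := by
    rintro z ⟨φ, hφ⟩
    obtain ⟨h, hh⟩ := hdir (π z)
    obtain ⟨δ, hδ, hd⟩ := hφ (pt T h) (1/2) (by norm_num)
    have hπ : ∀ t : ℝ, f (z + t • pt T h) = p (π z + t • h) := by
      intro t
      rfl
    have h1 := (hd (δ / 2) (by rw [abs_of_pos (by positivity)]; positivity)
      (by rw [abs_of_pos (by positivity)]; linarith)).2
    have h2 := (hd (-(δ / 2)) (by rw [abs_neg, abs_of_pos (by positivity)]; positivity)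
      (by rw [abs_neg, abs_of_pos (by positivity)]; linarith)).2
    rw [hπ] at h1 h2
    have h3 := (hh (δ / 2)).1 (by positivity)
    have h4 := (hh (-(δ / 2))).2 (by linarith)
    have h5 : 1 ≤ (p (π z + (δ / 2) • h) - f z) / (δ / 2) := by
      rw [le_div_iff₀ (by positivity)]
      change 1 * (δ / 2) ≤ p (π z + (δ / 2) • h) - p (π z)
      linarith
    have h6 : (p (π z + (-(δ / 2)) • h) - f z) / (-(δ / 2)) ≤ 0 := by
      apply div_nonpos_of_nonneg_of_nonpos
      · change 0 ≤ p (π z + (-(δ / 2)) • h) - p (π z)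
        linarith
      · linarith
    have h7 := (abs_lt.1 h1).2
    have h8 := (abs_lt.1 h2).1
    linarith
  refine ⟨Es T, inferInstance, inferInstance, inferInstance, inferInstance, inferInstance,
    inferInstance, inferInstance, hbaire, hsep, ?_, f, hfc, hfconv, hnG⟩
  intro hA
  obtain ⟨S, -, -, hS, hS2⟩ := hA Set.univ ⟨0, trivial⟩ isOpen_univ convex_univ f
    hfc.continuousOn hfconv
  have hne : S.Nonempty := by
    rw [← closure_nonempty_iff]
    exact ⟨0, hS trivial⟩
  obtain ⟨z, hz⟩ := hne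
  obtain ⟨φ, hφ⟩ := hS2 z hz
  refine hnG z ⟨φ, fun x ε hε => ?_⟩
  obtain ⟨δ, hδ, h⟩ := hφ {x} (Bornology.isVonNBounded_singleton x) ε hε
  exact ⟨δ, hδ, fun t ht1 ht2 => h t ht1 ht2 x rfl⟩

open H647R3.Baire in
/-- There is a Baire Hausdorff locally convex space whose strong dual is separable and which is
not Asplund; in fact it carries a continuous convex function which is nowhere Gâteaux
differentiable. -/
theorem result : ∃ (E : Type) (_ : AddCommGroup E) (_ : Module ℝ E) (_ : TopologicalSpace E)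
    (_ : IsTopologicalAddGroup E) (_ : ContinuousSMul ℝ E),
    T2Space E ∧ LocallyConvexSpace ℝ E ∧ BaireSpace E ∧
    TopologicalSpace.SeparableSpace (E →L[ℝ] ℝ) ∧
    ¬ IsAsplund E ∧
    ∃ f : E → ℝ, Continuous f ∧ ConvexOn ℝ Set.univ f ∧ ∀ x, ¬ GateauxAt Set.univ f x :=
  main card_Linf not_fd_Linf (fun n => BoundedContinuousFunction.evalCLM ℝ n)
    (fun _ hx => BoundedContinuousFunction.ext fun n => hx n) ls ls_lip.continuous ls_convex ls_dir

end Pool.Agent.Results.MP_e733ef_an.BaireNotAsplund
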